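import Pool.Agent.H115Z.Shift.Mod

set_option autoImplicit false

open MeasureTheory Filter Topology
open scoped InnerProductSpace ComplexConjugate

noncomputable section

namespace Pool.Agent.H115Z.Shift

theorem exists_seq_rec {α : Type*} [Nonempty α] (P : ∀ m : ℕ, (Fin m → α) → α → Prop)
    (h : ∀ (m : ℕ) (u : Fin m → α),
      (∀ j : Fin m, P j (fun i => u ⟨i, i.2.trans j.2⟩) (u j)) → ∃ a, P m u a) :
    ∃ w : ℕ → α, ∀ m, P m (fun i => w i) (w m) := by
  classical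
  let F : ∀ m : ℕ, (∀ i, i < m → α) → α := fun m r =>
    Classical.epsilon (P m fun i => r i i.2)
  let w : ℕ → α := Nat.lt_wfRel.wf.fix F
  have hw : ∀ m, w m = Classical.epsilon (P m fun i => w i) := fun m =>
    Nat.lt_wfRel.wf.fix_eq F m
  refine ⟨w, fun m => ?_⟩
  induction m using Nat.strong_induction_on with
  | _ m ih =>
    rw [hw m]
    exact Classical.epsilon_spec (h m (fun i => w i) fun j => ih j j.2)

variable {H : Type*} [NormedAddCommGroup H] [InnerProductSpace ℂ H] [CompleteSpace H]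
variable {π : CT →⋆ₐ[ℂ] (H →L[ℂ] H)}

/-- The functional calculus applied to a fixed vector. -/
def piv (π : CT →⋆ₐ[ℂ] (H →L[ℂ] H)) (hc : Continuous π) (v : H) : CT →L[ℂ] H where
  toFun g := π g v
  map_add' f g := by rw [map_add]; rfl
  map_smul' c f := by rw [map_smul]; rfl
  cont := (ContinuousLinearMap.apply ℂ H v).continuous.comp hc

theorem pi_fourier_nat {U : H →L[ℂ] H} (h1 : π (fourier 1) = U) (n : ℕ) :
    π (fourier (n : ℤ)) = U ^ n := by
  induction n with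
  | zero => rw [Nat.cast_zero, fourier_zero', map_one, pow_zero]
  | succ n ih => rw [Nat.cast_succ, ← fourier_mul, map_mul, ih, h1, pow_succ]

theorem exists_rel (hc : Continuous π) {U : H →L[ℂ] H} (h1 : π (fourier 1) = U) (w v : H)
    (hs : Summable fun n : ℕ => ‖⟪w, (U ^ (n + 1)) v⟫_ℂ‖)
    (hs' : Summable fun n : ℕ => ‖⟪v, (U ^ (n + 1)) w⟫_ℂ‖) :
    ∃ f, Rel π w v f ∧ ‖f - ⟪w, v⟫_ℂ • 1‖ ≤
      ∑' n : ℕ, ‖⟪w, (U ^ (n + 1)) v⟫_ℂ‖ + ∑' n : ℕ, ‖⟪v, (U ^ (n + 1)) w⟫_ℂ‖ := by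
  let c : ℤ → ℂ := fun n => ⟪w, π (fourier n) v⟫_ℂ
  let t : ℤ → CT := fun n => c n • fourier (-n)
  have ht : ∀ n, ‖t n‖ = ‖c n‖ := fun n => by
    simp only [t]
    rw [norm_smul, fourier_norm, mul_one]
  have e1 : ∀ n : ℕ, ‖t (n + 1)‖ = ‖⟪w, (U ^ (n + 1)) v⟫_ℂ‖ := fun n => by
    rw [ht, ← pi_fourier_nat h1]; simp [c]
  have e2 : ∀ n : ℕ, ‖t (-(n + 1))‖ = ‖⟪v, (U ^ (n + 1)) w⟫_ℂ‖ := fun n => by
    rw [ht, ← pi_fourier_nat h1]
    simp only [c]
    rw [← star_fourier, ← inner_pi, norm_inner_symm]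
    simp
  have s1 : Summable fun n : ℕ => ‖t (n + 1)‖ := by simpa only [e1] using hs
  have s2 : Summable fun n : ℕ => ‖t (-(n + 1))‖ := by simpa only [e2] using hs'
  have hsum := HasSum.of_add_one_of_neg_add_one (f := t) s1.of_norm.hasSum s2.of_norm.hasSum
  refine ⟨(∑' n : ℕ, t (n + 1)) + t 0 + ∑' n : ℕ, t (-(n + 1)), ?_, ?_⟩
  · set f := (∑' n : ℕ, t (n + 1)) + t 0 + ∑' n : ℕ, t (-(n + 1))
    have key : (innerSL ℂ w).comp (piv π hc v)
        = II.comp ((ContinuousLinearMap.mul ℂ CT).flip f) := by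
      refine ext_fourier _ _ fun m => ?_
      have h2 := ((II.comp (ContinuousLinearMap.mul ℂ CT (fourier m))).hasSum hsum)
      have h3 : ∀ n, (II.comp (ContinuousLinearMap.mul ℂ CT (fourier m))) (t n)
          = if n = m then c m else 0 := fun n => by
        simp only [t, map_smul, ContinuousLinearMap.comp_apply, ContinuousLinearMap.mul_apply',
          fourier_mul, II_fourier, smul_eq_mul]
        by_cases h : n = m
        · simp [h]
        · rw [if_neg (by omega), if_neg h, mul_zero]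
      simp only [h3] at h2
      exact (hasSum_ite_eq m (c m)).unique h2
    intro g
    exact congrArg (fun L : CT →L[ℂ] ℂ => L g) key
  · have e0 : t 0 = ⟪w, v⟫_ℂ • 1 := by
      simp only [t, c, neg_zero, fourier_zero', map_one]
      rfl
    rw [e0]
    have : (∑' n : ℕ, t (n + 1)) + ⟪w, v⟫_ℂ • (1 : CT) + ∑' n : ℕ, t (-(n + 1))
        - ⟪w, v⟫_ℂ • (1 : CT) = (∑' n : ℕ, t (n + 1)) + ∑' n : ℕ, t (-(n + 1)) := by abel
    rw [this]
    refine (norm_add_le _ _).trans (add_le_add ?_ ?_)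
    · simpa only [e1] using norm_tsum_le_tsum_norm s1
    · simpa only [e2] using norm_tsum_le_tsum_norm s2

/-- A unitary with absolutely summable correlations on a basis and an asymptotically wandering
sequence of basis vectors is a bilateral shift of infinite multiplicity. -/
theorem exists_basis (e : HilbertBasis ℕ ℂ H) (U : H →L[ℂ] H) (hU : U ∈ unitary (H →L[ℂ] H))
    (hs : ∀ i j, Summable fun n : ℕ => ‖⟪e i, (U ^ (n + 1)) (e j)⟫_ℂ‖)
    (z : ℕ → ℕ) (hz : Tendsto z atTop atTop)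
    (h1 : ∀ i, Tendsto (fun m => ∑' n : ℕ, ‖⟪e i, (U ^ (n + 1)) (e (z m))⟫_ℂ‖) atTop (𝓝 0))
    (h2 : ∀ i, Tendsto (fun m => ∑' n : ℕ, ‖⟪e (z m), (U ^ (n + 1)) (e i)⟫_ℂ‖) atTop (𝓝 0))
    (h3 : Tendsto (fun m => ∑' n : ℕ, ‖⟪e (z m), (U ^ (n + 1)) (e (z m))⟫_ℂ‖) atTop (𝓝 0)) :
    ∃ f : HilbertBasis (ℕ × ℤ) ℂ H, ∀ m n, U (f (m, n)) = f (m, n + 1) := by
  classical
  obtain ⟨π, hc, hπ⟩ := exists_rep U hU
  have hb : ∀ i j, ∃ f, Rel π (e i) (e j) f := fun i j =>
    (exists_rel hc hπ (e i) (e j) (hs i j) (hs j i)).imp fun _ h => h.1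
  have hb' : ∀ i j, ‖FF π (e i) (e j) - ⟪e i, e j⟫_ℂ • 1‖ ≤
      ∑' n : ℕ, ‖⟪e i, (U ^ (n + 1)) (e j)⟫_ℂ‖ + ∑' n : ℕ, ‖⟪e j, (U ^ (n + 1)) (e i)⟫_ℂ‖ :=
    fun i j => by
      obtain ⟨f, hf, hf'⟩ := exists_rel hc hπ (e i) (e j) (hs i j) (hs j i)
      rwa [hf.FF_eq]
  have hon := orthonormal_iff_ite.1 e.orthonormal
  have hz0 : ∀ i, Tendsto (fun m => FF π (e i) (e (z m))) atTop (𝓝 0) := fun i => by
    rw [tendsto_zero_iff_norm_tendsto_zero]
    have := (h1 i).add (h2 i)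
    rw [add_zero] at this
    refine squeeze_zero' (Eventually.of_forall fun _ => norm_nonneg _) ?_ this
    filter_upwards [hz.eventually_gt_atTop i] with m hm
    have := hb' i (z m)
    rwa [hon, if_neg hm.ne, zero_smul_CT, sub_zero] at this
  have hz1 : Tendsto (fun m => FF π (e (z m)) (e (z m))) atTop (𝓝 1) := by
    rw [tendsto_iff_norm_sub_tendsto_zero]
    have := h3.add h3
    rw [add_zero] at this
    refine squeeze_zero (fun _ => norm_nonneg _) (fun m => ?_) this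
    have := hb' (z m) (z m)
    rwa [hon, if_pos rfl, one_smul] at this
  obtain ⟨w, hw⟩ := exists_seq_rec (α := H) (fun m u w' => Dom π e w' ∧ FF π w' w' = 1 ∧
      (∀ i, FF π (u i) w' = 0) ∧ ∃ (s : CT) (g : Fin m → CT),
        ‖e (Nat.unpair m).1 - (π s w' + ∑ i, π (g i) (u i))‖ ≤ 2 * (1 / ((Nat.unpair m).2 + 1)))
    (fun m u hu => step hb hz0 hz1 u (fun i => (hu i).1) (fun i j => by
      rcases lt_trichotomy i j with h | h | h
      · rw [if_neg h.ne]
        exact (hu j).2.2.1 ⟨i, h⟩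
      · rw [if_pos h, h]
        exact (hu j).2.1
      · rw [if_neg h.ne', FF_symm hb (hu j).1 (hu i).1, (hu i).2.2.1 ⟨j, h⟩, star_zero])
      _ (by positivity))
  have hww : ∀ i j, FF π (w i) (w j) = if i = j then 1 else 0 := fun i j => by
    rcases lt_trichotomy i j with h | h | h
    · rw [if_neg h.ne]
      exact (hw j).2.2.1 ⟨i, h⟩
    · rw [if_pos h, h]
      exact (hw j).2.1
    · rw [if_neg h.ne', FF_symm hb (hw j).1 (hw i).1, (hw i).2.2.1 ⟨j, h⟩, star_zero]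
  let f : ℕ × ℤ → H := fun p => π (fourier p.2) (w p.1)
  have hf : Orthonormal ℂ f := by
    rw [orthonormal_iff_ite]
    rintro ⟨m, n⟩ ⟨m', n'⟩
    simp only [f]
    rw [inner_pi, ← pi_mul, star_fourier, fourier_mul, ((hw m).1.rel hb (hw m').1), hww]
    by_cases h : m = m'
    · rw [if_pos h, mul_one, II_fourier]
      simp only [Prod.mk.injEq, h, true_and]
      exact if_congr (by omega) rfl rfl
    · simp [h]
  let K := (Submodule.span ℂ (Set.range f)).topologicalClosure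
  have hK : IsClosed (K : Set H) := Submodule.isClosed_topologicalClosure _
  have hK1 : ∀ m g, π g (w m) ∈ K := fun m g => by
    have h0 : Submodule.span ℂ (Set.range (fourier (T := (1 : ℝ))))
        ≤ K.comap (piv π hc (w m)).toLinearMap := by
      rw [Submodule.span_le]
      rintro _ ⟨n, rfl⟩
      exact Submodule.le_topologicalClosure _ (Submodule.subset_span ⟨(m, n), rfl⟩)
    have h1 := Submodule.topologicalClosure_minimal _ h0
      (hK.preimage (piv π hc (w m)).continuous)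
    rw [span_fourier_closure_eq_top] at h1
    exact h1 Submodule.mem_top
  have hK2 : ∀ k, e k ∈ K := fun k => by
    have : e k ∈ closure (K : Set H) := by
      rw [Metric.mem_closure_iff]
      intro ε hε
      obtain ⟨l, hl⟩ := exists_nat_one_div_lt (half_pos hε)
      obtain ⟨s, g, hg⟩ := (hw (Nat.pair k l)).2.2.2
      rw [Nat.unpair_pair] at hg
      refine ⟨π s (w (Nat.pair k l)) + ∑ i : Fin (Nat.pair k l), π (g i) (w i),
        K.add_mem (hK1 _ s) (K.sum_mem fun i _ => hK1 _ (g i)), ?_⟩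
      rw [dist_eq_norm]
      exact lt_of_le_of_lt hg (by simp only; linarith)
    rwa [hK.closure_eq] at this
  have hK3 : ⊤ ≤ K := by
    rw [← e.dense_span]
    refine Submodule.topologicalClosure_minimal _ ?_ hK
    rw [Submodule.span_le]
    rintro _ ⟨k, rfl⟩
    exact hK2 k
  refine ⟨HilbertBasis.mk hf hK3, fun m n => ?_⟩
  rw [HilbertBasis.coe_mk]
  simp only [f]
  rw [← hπ, ← pi_mul, fourier_mul, add_comm]

theorem exists_unitary {ι : Type*} (b b' : HilbertBasis ι ℂ H) :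
    ∃ u : unitary (H →L[ℂ] H), ∀ i, (u : H →L[ℂ] H) (b i) = b' i := by
  classical
  refine ⟨Unitary.linearIsometryEquiv.symm (b.repr.trans b'.repr.symm), fun i => ?_⟩
  rw [Unitary.coe_symm_linearIsometryEquiv_apply]
  simp [HilbertBasis.repr_symm_single, HilbertBasis.repr_self]

omit [CompleteSpace H] in
theorem ext_basis {ι : Type*} {E : Type*} [NormedAddCommGroup E] [NormedSpace ℂ E]
    (b : HilbertBasis ι ℂ H) (A B : H →L[ℂ] E) (h : ∀ i, A (b i) = B (b i)) : A = B := by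
  refine ContinuousLinearMap.ext_on (s := Set.range b) ?_ ?_
  · rw [Submodule.dense_iff_topologicalClosure_eq_top]
    exact b.dense_span
  · rintro _ ⟨n, rfl⟩
    exact h n

/-- Being a bilateral shift of infinite multiplicity. -/
def IsShift (U : unitary (H →L[ℂ] H)) : Prop :=
  ∃ f : HilbertBasis (ℕ × ℤ) ℂ H, ∀ m n, (U : H →L[ℂ] H) (f (m, n)) = f (m, n + 1)

theorem IsShift.isConj {U V : unitary (H →L[ℂ] H)} (hU : IsShift U) (hV : IsShift V) :
    IsConj U V := by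
  obtain ⟨f, hf⟩ := hU
  obtain ⟨g, hg⟩ := hV
  obtain ⟨u, hu⟩ := exists_unitary f g
  rw [isConj_iff]
  refine ⟨u, ?_⟩
  rw [mul_inv_eq_iff_eq_mul]
  ext1
  refine ext_basis f _ _ ?_
  rintro ⟨m, n⟩
  simp [hf, hg, hu]

end Pool.Agent.H115Z.Shift
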