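import Mathlib

set_option autoImplicit false

open Filter Topology Finset

noncomputable section

namespace Pool.Agent.H115Z.Shift

theorem sum_norm_le (N : ℕ) (x : ℕ → ℂ) (z : ℕ → ℕ → ℂ) (b : ℕ → ℝ) (B : ℝ)
    (hx : ∀ n, HasSum (z n) (x n)) (hb : ∀ j, ∑ n ∈ range N, ‖z n j‖ ≤ b j) (hB : HasSum b B) :
    ∑ n ∈ range N, ‖x n‖ ≤ B := by
  have hs : ∀ n ∈ range N, Summable fun j => ‖z n j‖ := fun n hn =>
    Summable.of_nonneg_of_le (fun _ => norm_nonneg _)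
      (fun j => (single_le_sum (f := fun n => ‖z n j‖) (fun _ _ => norm_nonneg _) hn).trans (hb j))
      hB.summable
  calc ∑ n ∈ range N, ‖x n‖ ≤ ∑ n ∈ range N, ∑' j, ‖z n j‖ :=
        sum_le_sum fun n hn => by
          rw [← (hx n).tsum_eq]
          exact norm_tsum_le_tsum_norm (hs n hn)
    _ = ∑' j, ∑ n ∈ range N, ‖z n j‖ := (Summable.tsum_finsetSum hs).symm
    _ ≤ ∑' j, b j := Summable.tsum_le_tsum hb (summable_sum hs) hB.summable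
    _ = B := hB.tsum_eq

theorem hasSum_quarter (c : ℝ) : HasSum (fun j : ℕ => (1 / 2 : ℝ) ^ (j + 3) * c) (c / 4) := by
  have := (hasSum_geometric_two.mul_right ((1 / 2 : ℝ) ^ 3)).mul_right c
  rw [show c / 4 = 2 * (1 / 2) ^ 3 * c by ring]
  simpa only [pow_add] using this

variable {H : Type*} [NormedAddCommGroup H] [NormedSpace ℂ H]

/-- An operator which is a small perturbation of one that raises a filtration. -/
structure Raise (V : ℤ → Submodule ℂ H) (U T : H →L[ℂ] H) (E : ℕ → H →L[ℂ] H) : Prop where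
  anti : Antitone V
  normT : ‖T‖ ≤ 2
  mapT : ∀ p, ∀ v ∈ V p, T v ∈ V (p + 1)
  sum : HasSum E (U - T)
  normE : ∀ j, ‖E j‖ ≤ (1 / 32) ^ (j + 3)
  rangeE : ∀ (j : ℕ) v, E j v ∈ V (-((j : ℤ) + 3))
  kerE : ∀ j : ℕ, ∀ v ∈ V ((j : ℤ) + 3), E j v = 0

variable {V : ℤ → Submodule ℂ H} {U T : H →L[ℂ] H} {E : ℕ → H →L[ℂ] H}

theorem Raise.hasSum (h : Raise V U T E) (l : H →L[ℂ] ℂ) (v : H) :
    HasSum (fun j => l (E j v)) (l (U v) - l (T v)) := by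
  have := (l.comp (ContinuousLinearMap.apply ℂ H v)).hasSum h.sum
  simpa using this

theorem pow32 (j : ℕ) : (1 / 32 : ℝ) ^ (j + 3) * 4 ^ ((j : ℤ) + 3) * 4 ^ ((j : ℤ) + 3)
    = (1 / 2) ^ (j + 3) := by
  have : (4 : ℝ) ^ ((j : ℤ) + 3) = 4 ^ (j + 3) := by norm_cast
  rw [this, ← mul_pow, ← mul_pow]
  norm_num

theorem Raise.bound (h : Raise V U T E) (N : ℕ) : ∀ (p q : ℤ) (l : H →L[ℂ] ℂ) (v : H),
    (∀ x ∈ V q, l x = 0) → v ∈ V p →
      ∑ n ∈ range N, ‖l ((U ^ n) v)‖ ≤ 4 ^ (q - p) * (‖l‖ * ‖v‖) := by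
  induction N with
  | zero => intro p q l v _ _; simp; positivity
  | succ N ih =>
    intro p q l v hl hv
    have h4 : (0 : ℝ) < 4 ^ (q - p) := by positivity
    have hlv : 0 ≤ ‖l‖ * ‖v‖ := by positivity
    rw [sum_range_succ']
    have a0 : ‖l ((U ^ 0) v)‖ ≤ 4 ^ (q - p) * (‖l‖ * ‖v‖) / 4 := by
      rcases le_or_gt q p with hqp | hqp
      · rw [pow_zero, one_apply_eq_self, hl v (h.anti hqp hv), norm_zero]; positivity
      · have h1 : (4 : ℝ) ^ (1 : ℤ) ≤ 4 ^ (q - p) := zpow_le_zpow_right₀ (by norm_num) (by omega)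
        have h2 := l.le_opNorm v
        rw [pow_zero, one_apply_eq_self]
        rw [zpow_one] at h1
        nlinarith
    have a1 : ∑ n ∈ range N, ‖l ((U ^ n) (T v))‖ ≤ 4 ^ (q - p) * (‖l‖ * ‖v‖) / 2 := by
      refine (ih (p + 1) q l (T v) hl (h.mapT p v hv)).trans ?_
      have h1 : (4 : ℝ) ^ (q - (p + 1)) = 4 ^ (q - p) / 4 := by
        rw [← sub_sub, zpow_sub₀ (by norm_num), zpow_one]
      have h2 : ‖T v‖ ≤ 2 * ‖v‖ :=
        (T.le_opNorm v).trans (mul_le_mul_of_nonneg_right h.normT (norm_nonneg _))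
      have h3 := mul_le_mul_of_nonneg_left h2 (norm_nonneg l)
      rw [h1]
      nlinarith
    have a2 : ∑ n ∈ range N, ‖l ((U ^ n) (U v)) - l ((U ^ n) (T v))‖
        ≤ 4 ^ (q - p) * (‖l‖ * ‖v‖) / 4 := by
      refine sum_norm_le N _ (fun n j => l ((U ^ n) (E j v))) _ _
        (fun n => h.hasSum (l.comp (U ^ n)) v) (fun j => ?_) (hasSum_quarter _)
      rcases le_or_gt ((j : ℤ) + 3) p with hj | hj
      · simp only [h.kerE j v (h.anti hj hv), map_zero, norm_zero, sum_const_zero]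
        positivity
      · refine (ih _ q l (E j v) hl (h.rangeE j v)).trans ?_
        have h2 : ‖E j v‖ ≤ (1 / 32) ^ (j + 3) * ‖v‖ :=
          ((E j).le_opNorm v).trans (mul_le_mul_of_nonneg_right (h.normE j) (norm_nonneg _))
        have h3 : (4 : ℝ) ^ (q - -((j : ℤ) + 3))
            ≤ 4 ^ (q - p) * (4 ^ ((j : ℤ) + 3) * 4 ^ ((j : ℤ) + 3)) := by
          rw [← zpow_add₀ (by norm_num), ← zpow_add₀ (by norm_num)]
          exact zpow_le_zpow_right₀ (by norm_num) (by omega)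
        calc (4 : ℝ) ^ (q - -((j : ℤ) + 3)) * (‖l‖ * ‖E j v‖)
            ≤ (4 ^ (q - p) * (4 ^ ((j : ℤ) + 3) * 4 ^ ((j : ℤ) + 3)))
              * (‖l‖ * ((1 / 32) ^ (j + 3) * ‖v‖)) := by gcongr
          _ = ((1 / 32 : ℝ) ^ (j + 3) * 4 ^ ((j : ℤ) + 3) * 4 ^ ((j : ℤ) + 3))
              * (4 ^ (q - p) * (‖l‖ * ‖v‖)) := by ring
          _ = _ := by rw [pow32]
    have a3 : ∑ n ∈ range N, ‖l ((U ^ (n + 1)) v)‖ ≤ ∑ n ∈ range N, ‖l ((U ^ n) (T v))‖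
        + ∑ n ∈ range N, ‖l ((U ^ n) (U v)) - l ((U ^ n) (T v))‖ := by
      rw [← sum_add_distrib]
      refine sum_le_sum fun n _ => ?_
      rw [pow_succ]
      exact norm_le_norm_add_norm_sub' _ _
    linarith

theorem Raise.bound' (h : Raise V U T E) (N : ℕ) (p : ℤ) (a : ℕ) (l : H →L[ℂ] ℂ) (v : H)
    (hT : ∀ x ∈ V (2 - a), l (T x) = 0) (hE : ∀ j, j + 3 ≤ a → ∀ x, l (E j x) = 0)
    (hv : v ∈ V p) :
    ∑ n ∈ range N, ‖l ((U ^ (n + 1)) v)‖ ≤ 33 * (4 ^ (-(a : ℤ) - p) * (‖l‖ * ‖v‖)) := by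
  have h4 : (0 : ℝ) < 4 ^ (-(a : ℤ) - p) := by positivity
  have hlv : 0 ≤ ‖l‖ * ‖v‖ := by positivity
  have a1 : ∑ n ∈ range N, ‖l (T ((U ^ n) v))‖ ≤ 32 * (4 ^ (-(a : ℤ) - p) * (‖l‖ * ‖v‖)) := by
    refine (h.bound N p (2 - a) (l.comp T) v hT hv).trans ?_
    have h1 : (4 : ℝ) ^ (2 - (a : ℤ) - p) = 16 * 4 ^ (-(a : ℤ) - p) := by
      rw [show 2 - (a : ℤ) - p = 2 + (-(a : ℤ) - p) by ring, zpow_add₀ (by norm_num)]
      norm_num
    have h2 : ‖l.comp T‖ ≤ ‖l‖ * 2 :=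
      (l.opNorm_comp_le T).trans (mul_le_mul_of_nonneg_left h.normT (norm_nonneg _))
    have h3 := mul_le_mul_of_nonneg_right h2 (norm_nonneg v)
    rw [h1]
    nlinarith
  have a2 : ∑ n ∈ range N, ‖l (U ((U ^ n) v)) - l (T ((U ^ n) v))‖
      ≤ 4 ^ (-(a : ℤ) - p) * (‖l‖ * ‖v‖) / 4 := by
    refine sum_norm_le N _ (fun n j => l (E j ((U ^ n) v))) _ _
      (fun n => h.hasSum l _) (fun j => ?_) (hasSum_quarter _)
    rcases le_or_gt (j + 3) a with hj | hj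
    · simp only [hE j hj, norm_zero, sum_const_zero]
      positivity
    · refine (h.bound N p ((j : ℤ) + 3) (l.comp (E j)) v
        (fun x hx => by simp [h.kerE j x hx]) hv).trans ?_
      have h2 : ‖l.comp (E j)‖ ≤ ‖l‖ * (1 / 32) ^ (j + 3) :=
        (l.opNorm_comp_le _).trans (mul_le_mul_of_nonneg_left (h.normE j) (norm_nonneg _))
      have h3 : (4 : ℝ) ^ (((j : ℤ) + 3) - p)
          ≤ 4 ^ (-(a : ℤ) - p) * (4 ^ ((j : ℤ) + 3) * 4 ^ ((j : ℤ) + 3)) := by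
        rw [← zpow_add₀ (by norm_num), ← zpow_add₀ (by norm_num)]
        exact zpow_le_zpow_right₀ (by norm_num) (by omega)
      calc (4 : ℝ) ^ (((j : ℤ) + 3) - p) * (‖l.comp (E j)‖ * ‖v‖)
          ≤ (4 ^ (-(a : ℤ) - p) * (4 ^ ((j : ℤ) + 3) * 4 ^ ((j : ℤ) + 3)))
            * ((‖l‖ * (1 / 32) ^ (j + 3)) * ‖v‖) := by gcongr
        _ = ((1 / 32 : ℝ) ^ (j + 3) * 4 ^ ((j : ℤ) + 3) * 4 ^ ((j : ℤ) + 3))
            * (4 ^ (-(a : ℤ) - p) * (‖l‖ * ‖v‖)) := by ring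
        _ = _ := by rw [pow32]
  have a3 : ∑ n ∈ range N, ‖l ((U ^ (n + 1)) v)‖ ≤ ∑ n ∈ range N, ‖l (T ((U ^ n) v))‖
      + ∑ n ∈ range N, ‖l (U ((U ^ n) v)) - l (T ((U ^ n) v))‖ := by
    rw [← sum_add_distrib]
    refine sum_le_sum fun n _ => ?_
    rw [pow_succ']
    exact norm_le_norm_add_norm_sub' _ _
  nlinarith

end Pool.Agent.H115Z.Shift
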