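import Pool.Agent.H115Z.Shift.Basis
import Pool.Agent.H115Z.Shift.Dyson

set_option autoImplicit false

open MeasureTheory Filter Topology Finset
open scoped InnerProductSpace ComplexConjugate

noncomputable section

namespace Pool.Agent.H115Z.Shift

/-- The position of a level. -/
def pos (j : ℕ) : ℤ := if j % 4 = 0 then j else -j

theorem pos_le (j : ℕ) : pos j ≤ j := by unfold pos; split_ifs <;> omega

theorem le_pos (j : ℕ) : -(j : ℤ) ≤ pos j := by unfold pos; split_ifs <;> omega

theorem exists_lev (N : ℕ → ℕ) (hN : StrictMono N) (h0 : N 0 = 0) :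
    ∃ lev : ℕ → ℕ, ∀ x j, x < N j ↔ lev x < j := by
  classical
  have hex : ∀ x, ∃ j, x < N (j + 1) := fun x => ⟨x, hN.id_le (x + 1)⟩
  refine ⟨fun x => Nat.find (hex x), fun x j => ?_⟩
  rcases j with _ | j
  · simp [h0]
  · rw [Nat.lt_succ_iff, Nat.find_le_iff]
    constructor
    · exact fun h => ⟨j, le_rfl, h⟩
    · rintro ⟨m, hm, h⟩
      exact h.trans_le (hN.monotone (by omega))

theorem exists_perm (N : ℕ → ℕ) (hN : StrictMono N) (lev : ℕ → ℕ)
    (hl : ∀ x j, x < N j ↔ lev x < j) :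
    ∃ σ : ℕ ≃ ℕ, (∀ y x, lev x ≤ lev y + 1 → lev y ≤ lev x + 1 → pos (lev x) < pos (lev (σ y))) ∧
      ∀ m : ℕ, ∃ y, lev y = 8 * m + 6 ∧ (m : ℤ) ≤ pos (lev (σ y)) := by
  have hlN : ∀ j, lev (N j) = j := fun j => by
    have h1 := (hl (N j) (j + 1)).1 (hN (Nat.lt_succ_self j))
    have h2 := (hl (N j) j).not.1 (lt_irrefl _)
    omega
  have hle : ∀ x, lev x ≤ x := fun x => by
    have := (hl x (x + 1)).1 (hN.id_le (x + 1))
    omega
  obtain ⟨σ, hσ, hR⟩ := Function.Embedding.schroeder_bernstein_of_rel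
    (f := fun y => N (4 * (y + 1))) (g := fun z => N (8 * (z + 1) + 2))
    (fun a b h => by have := hN.injective h; omega)
    (fun a b h => by have := hN.injective h; omega)
    (fun y z => (∀ x, lev x ≤ lev y + 1 → lev y ≤ lev x + 1 → pos (lev x) < pos (lev z)) ∧
      ∀ m, y = N (8 * m + 6) → z = N (4 * (y + 1)))
    (fun y => ⟨fun x h1 _ => by
      have := pos_le (lev x)
      have := hle y
      rw [hlN, pos, pos, if_pos (by omega : 4 * (y + 1) % 4 = 0)]
      split_ifs <;> omega, fun _ _ => rfl⟩)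
    (fun z => ⟨fun x h1 h2 => by
      rw [hlN] at h1 h2
      have := le_pos (lev z)
      have := hle z
      rw [pos, if_neg (by omega)]
      omega, fun m h => by have := hN.injective h; omega⟩)
  refine ⟨Equiv.ofBijective σ hσ, fun y => (hR y).1, fun m => ⟨N (8 * m + 6), hlN _, ?_⟩⟩
  rw [Equiv.ofBijective_apply, (hR _).2 m rfl, hlN, pos, if_pos (by omega)]
  have := hN.id_le (8 * m + 6)
  simp only [id] at this
  omega

variable {H : Type*} [NormedAddCommGroup H] [InnerProductSpace ℂ H] [CompleteSpace H]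

/-- The part of `w` along the basis vectors with index in `s`. -/
def blk (e : ℕ → H) (s : Finset ℕ) (w : H) : H := ∑ y ∈ s, ⟪e y, w⟫_ℂ • e y

omit [CompleteSpace H] in
theorem inner_blk (e : HilbertBasis ℕ ℂ H) (s : Finset ℕ) (w : H) (y : ℕ) :
    ⟪e y, blk e s w⟫_ℂ = if y ∈ s then ⟪e y, w⟫_ℂ else 0 := by
  have hon := orthonormal_iff_ite.1 e.orthonormal
  simp [blk, hon]

omit [CompleteSpace H] in
theorem apply_eq_zero (e : HilbertBasis ℕ ℂ H) (l : H →L[ℂ] ℂ) (v : H)
    (h : ∀ x, ⟪e x, v⟫_ℂ ≠ 0 → l (e x) = 0) : l v = 0 := by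
  have h1 := l.hasSum (e.hasSum_repr v)
  have h2 : ∀ x, l (e.repr v x • e x) = 0 := fun x => by
    rw [map_smul, e.repr_apply_apply, smul_eq_mul, mul_eq_zero, or_iff_not_imp_left]
    exact h x
  simp only [h2] at h1
  exact h1.unique hasSum_zero

/-- The size of the far blocks of a unitary. -/
def far (e : ℕ → H) (k : H →L[ℂ] H) (n : ℕ) (s : Finset ℕ) : ℝ :=
  ∑ x ∈ range n, (‖blk e s (k (e x))‖ + ‖blk e s (star k (e x))‖)

/-- The far blocks. -/
def DD (e : ℕ → H) (k : H →L[ℂ] H) (n : ℕ) (s : Finset ℕ) : H →L[ℂ] H :=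
  ∑ x ∈ range n, ((innerSL ℂ (e x)).smulRight (blk e s (k (e x)))
    + (innerSL ℂ (blk e s (star k (e x)))).smulRight (e x))

theorem norm_DD (e : HilbertBasis ℕ ℂ H) (k : H →L[ℂ] H) (n : ℕ) (s : Finset ℕ) :
    ‖DD e k n s‖ ≤ far e k n s := by
  refine (norm_sum_le _ _).trans (sum_le_sum fun x _ => (norm_add_le _ _).trans ?_)
  simp [ContinuousLinearMap.norm_smulRight_apply, e.orthonormal.1 x]

theorem inner_DD (e : HilbertBasis ℕ ℂ H) (k : H →L[ℂ] H) (n : ℕ) (s : Finset ℕ) (x y : ℕ) :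
    ⟪e y, DD e k n s (e x)⟫_ℂ = (if x < n ∧ y ∈ s then ⟪e y, k (e x)⟫_ℂ else 0)
      + (if y < n ∧ x ∈ s then ⟪e y, k (e x)⟫_ℂ else 0) := by
  have hon := orthonormal_iff_ite.1 e.orthonormal
  have h1 : ∀ u, ⟪blk e s (star k (e u)), e x⟫_ℂ = if x ∈ s then ⟪e u, k (e x)⟫_ℂ else 0 :=
    fun u => by
      rw [← inner_conj_symm, inner_blk]
      split_ifs
      · rw [inner_conj_symm, ContinuousLinearMap.star_eq_adjoint,
          ContinuousLinearMap.adjoint_inner_left]
      · simp
  simp only [DD, _root_.sum_apply, add_apply,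
    ContinuousLinearMap.smulRight_apply, innerSL_apply_apply, inner_sum, inner_add_right,
    inner_smul_right, hon, h1, inner_blk, sum_add_distrib]
  congr 1
  · by_cases h : y ∈ s <;> simp [h]
  · by_cases h : x ∈ s <;> simp [h]

theorem isShift_of_far (e : HilbertBasis ℕ ℂ H) (N : ℕ → ℕ) (hN : StrictMono N) (h0 : N 0 = 0) :
    ∃ h : unitary (H →L[ℂ] H), ∀ k : unitary (H →L[ℂ] H),
      (∀ j, far e k (N (j + 1)) (Ico (N (j + 2)) (N (j + 3))) ≤ (1 / 32) ^ (j + 3)) →
        IsShift (h * k) := by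
  obtain ⟨lev, hl⟩ := exists_lev N hN h0
  obtain ⟨σ, hσ, hσ'⟩ := exists_perm N hN lev hl
  have hle : ∀ x, lev x ≤ x := fun x => by
    have := (hl x (x + 1)).1 (hN.id_le (x + 1))
    omega
  have hon := orthonormal_iff_ite.1 e.orthonormal
  have hsp : ⊤ ≤ (Submodule.span ℂ (Set.range (e ∘ σ))).topologicalClosure := by
    rw [σ.surjective.range_comp, e.dense_span]
  obtain ⟨h, hh⟩ := exists_unitary e (HilbertBasis.mk (e.orthonormal.comp σ σ.injective) hsp)
  simp only [HilbertBasis.coe_mk, Function.comp_apply] at hh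
  have hin : ∀ y w, ⟪e (σ y), (h : H →L[ℂ] H) w⟫_ℂ = ⟪e y, w⟫_ℂ := fun y w => by
    rw [← hh]
    exact ContinuousLinearMap.inner_map_map_of_mem_unitary h.2 _ _
  refine ⟨h, fun k hk => ?_⟩
  let D : ℕ → H →L[ℂ] H := fun j => DD e k (N (j + 1)) (Ico (N (j + 2)) (N (j + 3)))
  let E : ℕ → H →L[ℂ] H := fun j => (h : H →L[ℂ] H).comp (D j)
  let U : H →L[ℂ] H := (h * k : unitary (H →L[ℂ] H))
  let T : H →L[ℂ] H := U - ∑' j, E j
  have hD : ∀ j x y, ⟪e y, D j (e x)⟫_ℂ = (if lev x ≤ j ∧ lev y = j + 2 then ⟪e y, k.1 (e x)⟫_ℂ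
      else 0) + (if lev y ≤ j ∧ lev x = j + 2 then ⟪e y, k.1 (e x)⟫_ℂ else 0) := fun j x y => by
    have a : ∀ u, u ∈ Ico (N (j + 2)) (N (j + 3)) ↔ lev u = j + 2 := fun u => by
      rw [mem_Ico, ← not_lt, hl, hl]; omega
    simp only [D, inner_DD, a, hl, Nat.lt_succ_iff]
  have hnE : ∀ j, ‖E j‖ ≤ (1 / 32) ^ (j + 3) := fun j => by
    refine le_trans ?_ ((norm_DD e k _ _).trans (hk j))
    refine ContinuousLinearMap.opNorm_le_bound _ (norm_nonneg _) fun v => ?_
    simp only [E, ContinuousLinearMap.comp_apply]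
    rw [ContinuousLinearMap.norm_map_of_mem_unitary h.2]
    exact (D j).le_opNorm v
  have hnE' : ∀ j, ‖E j‖ ≤ (1 / 2) ^ (j + 3) * 1 := fun j => by
    rw [mul_one]
    exact (hnE j).trans (pow_le_pow_left₀ (by norm_num) (by norm_num) _)
  have hsE : Summable E := Summable.of_norm_bounded (hasSum_quarter 1).summable hnE'
  have hsum : HasSum E (U - T) := by
    simpa [T] using hsE.hasSum
  have hT : ∀ x y, lev x + 2 ≤ lev y ∨ lev y + 2 ≤ lev x → ⟪e (σ y), T (e x)⟫_ℂ = 0 :=
    fun x y hxy => by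
      have h1 := ((innerSL ℂ (e (σ y))).comp (ContinuousLinearMap.apply ℂ H (e x))).hasSum hsum
      have h2 : ∀ j, ⟪e (σ y), E j (e x)⟫_ℂ
          = if j = max (lev x) (lev y) - 2 then ⟪e y, k.1 (e x)⟫_ℂ else 0 := fun j => by
        simp only [E, ContinuousLinearMap.comp_apply]
        rw [hin, hD]
        split_ifs <;> first | omega | simp
      simp only [ContinuousLinearMap.comp_apply, ContinuousLinearMap.apply_apply,
        innerSL_apply_apply, h2, sub_apply, inner_sub_right] at h1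
      have h3 := h1.unique (hasSum_ite_eq _ _)
      have h4 : ⟪e (σ y), U (e x)⟫_ℂ = ⟪e y, k.1 (e x)⟫_ℂ := hin y _
      rw [h4] at h3
      simpa using h3
  let V : ℤ → Submodule ℂ H := fun p =>
    { carrier := {v | ∀ x, pos (lev x) < p → ⟪e x, v⟫_ℂ = 0}
      add_mem' := fun {a b} ha hb x hx => by rw [inner_add_right, ha x hx, hb x hx, add_zero]
      zero_mem' := fun x _ => inner_zero_right _
      smul_mem' := fun c a ha x hx => by rw [inner_smul_right, ha x hx, mul_zero] }
  have hV : ∀ p v, v ∈ V p ↔ ∀ x, pos (lev x) < p → ⟪e x, v⟫_ℂ = 0 := fun _ _ => Iff.rfl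
  have hDz : ∀ j y v, j + 2 < lev y → ⟪e y, D j v⟫_ℂ = 0 := fun j y v hj =>
    apply_eq_zero e ((innerSL ℂ (e y)).comp (D j)) v fun x _ => by
      simp only [ContinuousLinearMap.comp_apply, innerSL_apply_apply]
      rw [hD, if_neg (by omega), if_neg (by omega), add_zero]
  have R : Raise V U T E :=
    { anti := fun p q hpq v hv x hx => hv x (hx.trans_le hpq)
      normT := by
        have h1 : ‖U‖ ≤ 1 := ContinuousLinearMap.opNorm_le_bound _ zero_le_one fun v => by
          rw [ContinuousLinearMap.norm_map_of_mem_unitary (h * k).2, one_mul]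
        have h2 := tsum_of_norm_bounded (hasSum_quarter 1) hnE'
        have h3 := norm_sub_le U (∑' j, E j)
        simp only [T]
        linarith
      mapT := fun p v hv z hz => by
        obtain ⟨y, rfl⟩ := σ.surjective z
        refine apply_eq_zero e ((innerSL ℂ (e (σ y))).comp T) v fun x hx => hT x y ?_
        by_contra hc
        exact hx (hv x (by have := hσ y x (by omega) (by omega); omega))
      sum := hsum
      normE := hnE
      rangeE := fun j v z hz => by
        obtain ⟨y, rfl⟩ := σ.surjective z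
        simp only [E, ContinuousLinearMap.comp_apply]
        rw [hin]
        refine hDz j y v ?_
        have := hσ y y (by omega) (by omega)
        have := le_pos (lev y)
        omega
      kerE := fun j v hv => by
        have : D j v = 0 := by
          apply e.repr.injective
          ext y
          rw [e.repr_apply_apply, map_zero]
          refine apply_eq_zero e ((innerSL ℂ (e y)).comp (D j)) v fun x hx => ?_
          have h1 : ¬ pos (lev x) < (j : ℤ) + 3 := fun hc => hx (hv x hc)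
          have := pos_le (lev x)
          simp only [ContinuousLinearMap.comp_apply, innerSL_apply_apply]
          rw [hD, if_neg (by omega), if_neg (by omega), add_zero]
        simp [E, this] }
  have heV : ∀ x, e x ∈ V (pos (lev x)) := fun x y hy => by
    rw [hon, if_neg]
    rintro rfl
    exact lt_irrefl _ hy
  have hn1 : ∀ x, ‖e x‖ = 1 := e.orthonormal.1
  have b1 : ∀ i j M, ∑ n ∈ range M, ‖⟪e i, (U ^ (n + 1)) (e j)⟫_ℂ‖
      ≤ 4 ^ (pos (lev i) + 1 - pos (lev j)) := fun i j M => by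
    have := R.bound (M + 1) (pos (lev j)) (pos (lev i) + 1) (innerSL ℂ (e i)) (e j)
      (fun x hx => hx i (by omega)) (heV j)
    rw [sum_range_succ'] at this
    simp only [innerSL_apply_apply, innerSL_apply_norm, hn1, mul_one] at this
    have h2 := norm_nonneg ⟪e i, (U ^ 0) (e j)⟫_ℂ
    linarith
  choose y hy hy' using hσ'
  have b2 : ∀ m j M, ∑ n ∈ range M, ‖⟪e (σ (y m)), (U ^ (n + 1)) (e j)⟫_ℂ‖
      ≤ 33 * 4 ^ (-((8 * m + 6 : ℕ) : ℤ) - pos (lev j)) := fun m j M => by
    have := R.bound' M (pos (lev j)) (8 * m + 6) (innerSL ℂ (e (σ (y m)))) (e j)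
      (fun v hv => apply_eq_zero e ((innerSL ℂ (e (σ (y m)))).comp T) v fun x hx => hT x _ (by
        by_contra hc
        refine hx (hv x ?_)
        have := hy m
        rw [pos, if_neg (by omega)]
        omega))
      (fun j hj v => by
        simp only [E, ContinuousLinearMap.comp_apply, innerSL_apply_apply]
        rw [hin]
        exact hDz j _ v (by have := hy m; omega)) (heV j)
    simpa only [innerSL_apply_apply, innerSL_apply_norm, hn1, mul_one] using this
  have lim : ∀ (C : ℝ) (c : ℤ) (f : ℕ → ℕ → ℂ) (g : ℕ → ℤ), (∀ m, g m ≤ c - m) →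
      (∀ m M, ∑ n ∈ range M, ‖f m n‖ ≤ C * 4 ^ g m) → 0 ≤ C →
      Tendsto (fun m => ∑' n, ‖f m n‖) atTop (𝓝 0) := fun C c f g hg hf hC => by
    have h1 : Tendsto (fun m : ℕ => C * 4 ^ c * (1 / 4 : ℝ) ^ m) atTop (𝓝 0) := by
      simpa using (tendsto_pow_atTop_nhds_zero_of_lt_one (r := (1 / 4 : ℝ)) (by norm_num)
        (by norm_num)).const_mul (C * 4 ^ c)
    refine squeeze_zero (fun m => tsum_nonneg fun _ => norm_nonneg _) (fun m => ?_) h1
    refine (Real.tsum_le_of_sum_range_le (fun _ => norm_nonneg _) (hf m)).trans ?_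
    rw [mul_assoc]
    refine mul_le_mul_of_nonneg_left ?_ hC
    refine (zpow_le_zpow_right₀ (by norm_num) (hg m)).trans_eq ?_
    rw [zpow_sub₀ (by norm_num)]
    simp [div_eq_mul_inv]
  refine exists_basis e U (h * k).2
    (fun i j => summable_of_sum_range_le (fun _ => norm_nonneg _) (b1 i j)) (fun m => σ (y m))
    ?_ (fun i => ?_) (fun i => ?_) ?_
  · refine tendsto_atTop_mono (fun m => ?_) tendsto_id
    have := hy' m
    have := pos_le (lev (σ (y m)))
    have := hle (σ (y m))
    simp only [id]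
    omega
  · exact lim 1 (pos (lev i) + 1) _ (fun m => pos (lev i) + 1 - pos (lev (σ (y m))))
      (fun m => by have := hy' m; omega) (fun m M => by rw [one_mul]; exact b1 _ _ _) zero_le_one
  · exact lim 33 (-pos (lev i)) _ _ (fun m => by omega) (fun m M => b2 m i M) (by norm_num)
  · exact lim 33 0 _ _ (fun m => by have := hy' m; omega) (fun m M => b2 m _ M) (by norm_num)

end Pool.Agent.H115Z.Shift
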