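import Pool.Agent.H115Z.Shift.Catch

set_option autoImplicit false

open MeasureTheory Filter Topology Finset
open scoped InnerProductSpace ComplexConjugate ENNReal

noncomputable section

namespace Pool.Agent.H115Z.Shift

variable {H : Type*} [NormedAddCommGroup H] [InnerProductSpace ℂ H] [CompleteSpace H]

theorem blk_small (e : HilbertBasis ℕ ℂ H) (w : H) {ε : ℝ} (hε : 0 < ε) :
    ∀ᶠ a in atTop, ∀ b, ‖blk e (Ico a b) w‖ < ε := by
  obtain ⟨s, hs⟩ := summable_iff_vanishing_norm.1 (e.hasSum_repr w).summable ε hε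
  filter_upwards [eventually_gt_atTop (s.sup id)] with a ha b
  have := hs (Ico a b) (disjoint_left.2 fun x hx hx' => by
    have h1 : id x ≤ s.sup id := le_sup hx'
    have h2 := (mem_Ico.1 hx).1
    simp only [id] at h1
    omega)
  simpa only [blk, e.repr_apply_apply] using this

theorem far_small (e : HilbertBasis ℕ ℂ H) (k : H →L[ℂ] H) (n : ℕ) {ε : ℝ} (hε : 0 < ε) :
    ∀ᶠ a in atTop, ∀ b, far e k n (Ico a b) ≤ ε := by
  have hδ : 0 < ε / (2 * n + 1) := by positivity
  have h1 := (range n).eventually_all.2 fun x _ =>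
    (blk_small e (k (e x)) hδ).and (blk_small e (star k (e x)) hδ)
  filter_upwards [h1] with a ha b
  have : far e k n (Ico a b) ≤ ∑ _x ∈ range n, 2 * (ε / (2 * n + 1)) :=
    sum_le_sum fun x hx => by linarith [(ha x hx).1 b, (ha x hx).2 b]
  refine this.trans ?_
  rw [sum_const, card_range, nsmul_eq_mul, ← mul_assoc, mul_div_assoc', div_le_iff₀ (by positivity)]
  nlinarith

theorem measurable_far {Ω : Type*} [MeasurableSpace Ω] (e : ℕ → H) (K : Ω → H →L[ℂ] H)
    (hK : ∀ x y, Measurable fun ω => ⟪e y, K ω (e x)⟫_ℂ) (n : ℕ) (s : Finset ℕ) :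
    Measurable fun ω => far e (K ω) n s := by
  have hc : Measurable fun c : ℕ → ℂ => ‖∑ y ∈ s, c y • e y‖ :=
    Continuous.measurable (by fun_prop)
  refine Finset.measurable_sum _ fun x _ => Measurable.add ?_ ?_
  · exact hc.comp (measurable_pi_lambda _ fun y => hK x y)
  · refine hc.comp (measurable_pi_lambda (fun ω y => ⟪e y, star (K ω) (e x)⟫_ℂ) fun y => ?_)
    have : (fun ω => ⟪e y, star (K ω) (e x)⟫_ℂ) = fun ω => conj ⟪e x, K ω (e y)⟫_ℂ := by
      ext ω
      rw [ContinuousLinearMap.star_eq_adjoint, ContinuousLinearMap.adjoint_inner_right,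
        inner_conj_symm]
    rw [this]
    exact Complex.continuous_conj.measurable.comp (hK y x)

theorem exists_cut {Ω : Type*} [MeasurableSpace Ω] (μ : Measure Ω) [IsProbabilityMeasure μ]
    (e : HilbertBasis ℕ ℂ H) (K : Ω → H →L[ℂ] H)
    (hK : ∀ x y, Measurable fun ω => ⟪e y, K ω (e x)⟫_ℂ) (n : ℕ) {ε : ℝ} (hε : 0 < ε)
    {δ : ℝ≥0∞} (hδ : 0 < δ) :
    ∃ c : ℕ, μ {ω | ∃ a, c ≤ a ∧ ∃ b, ε < far e (K ω) n (Ico a b)} ≤ δ := by
  let B : ℕ → Set Ω := fun c => {ω | ∃ a, c ≤ a ∧ ∃ b, ε < far e (K ω) n (Ico a b)}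
  have hm : ∀ c, MeasurableSet (B c) := fun c => by
    have : B c = ⋃ a, ⋃ _ : c ≤ a, ⋃ b, {ω | ε < far e (K ω) n (Ico a b)} := by
      ext ω; simp [B]
    rw [this]
    exact .iUnion fun a => .iUnion fun _ => .iUnion fun b =>
      measurableSet_lt measurable_const (measurable_far e K hK n _)
  have ha : Antitone B := fun c c' h ω ⟨a, h1, h2⟩ => ⟨a, h.trans h1, h2⟩
  have h0 : ⋂ c, B c = ∅ := by
    rw [Set.eq_empty_iff_forall_notMem]
    intro ω hω
    obtain ⟨c, hc⟩ := eventually_atTop.1 (far_small e (K ω) n hε)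
    obtain ⟨a, h1, b, h2⟩ := Set.mem_iInter.1 hω c
    exact absurd (hc a h1 b) (not_le.2 h2)
  have := tendsto_measure_iInter_atTop (μ := μ) (fun c => (hm c).nullMeasurableSet) ha
    ⟨0, measure_ne_top _ _⟩
  rw [h0, measure_empty] at this
  exact (this.eventually (eventually_le_nhds hδ)).exists

/-- For every random unitary some left translate is, with positive probability, a bilateral shift
of infinite multiplicity. -/
theorem exists_translate {Ω : Type*} [MeasurableSpace Ω] (μ : Measure Ω) [IsProbabilityMeasure μ]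
    (e : HilbertBasis ℕ ℂ H) (K : Ω → unitary (H →L[ℂ] H))
    (hK : ∀ x y, Measurable fun ω => ⟪e y, (K ω).1 (e x)⟫_ℂ) :
    ∃ h : unitary (H →L[ℂ] H), μ {ω | IsShift (h * K ω)} ≠ 0 := by
  choose c hc using fun n j : ℕ => exists_cut μ e (fun ω => (K ω).1) hK n
    (ε := (1 / 32) ^ (j + 3)) (by positivity) (δ := ENNReal.ofReal ((1 / 2) ^ (j + 3) * 1))
    (ENNReal.ofReal_pos.2 (by positivity))
  let M : ℕ → ℕ := fun j => Nat.rec 1 (fun j m => max (m + 1) (c m j)) j
  let N : ℕ → ℕ := fun j => Nat.casesOn j 0 M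
  have hN : StrictMono N := strictMono_nat_of_lt_succ fun j => by
    rcases j with _ | j
    · exact zero_lt_one
    · exact lt_of_lt_of_le (Nat.lt_succ_self _) (le_max_left (M j + 1) (c (M j) j))
  obtain ⟨h, hh⟩ := isShift_of_far e N hN rfl
  refine ⟨h, fun h0 => ?_⟩
  have hsub : Set.univ ⊆ {ω | IsShift (h * K ω)} ∪ ⋃ j, {ω | ∃ a, c (M j) j ≤ a ∧
      ∃ b, (1 / 32) ^ (j + 3) < far e (K ω).1 (M j) (Ico a b)} := fun ω _ => by
    by_contra hc
    simp only [Set.mem_union, Set.mem_setOf_eq, Set.mem_iUnion, not_or, not_exists, not_and,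
      not_lt] at hc
    exact hc.1 (hh _ fun j => hc.2 j _ (le_max_right (M j + 1) (c (M j) j)) _)
  have h1 := (measure_mono (μ := μ) hsub).trans (measure_union_le _ _)
  rw [h0, zero_add, measure_univ] at h1
  have h2 := h1.trans ((measure_iUnion_le _).trans (ENNReal.tsum_le_tsum fun j => hc (M j) j))
  rw [← ENNReal.ofReal_tsum_of_nonneg (fun j => by positivity) (hasSum_quarter 1).summable,
    (hasSum_quarter 1).tsum_eq, ENNReal.one_le_ofReal] at h2
  norm_num at h2

end Pool.Agent.H115Z.Shift
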