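import Pool.Agent.H115Z.Shift.Rep

set_option autoImplicit false

open MeasureTheory Filter Topology
open scoped InnerProductSpace ComplexConjugate

noncomputable section

namespace Pool.Agent.H115Z.Shift

variable {H : Type*} [NormedAddCommGroup H] [InnerProductSpace ℂ H] [CompleteSpace H]

/-- `f` is the (continuous) joint spectral density of `w` and `v`. -/
def Rel (π : CT →⋆ₐ[ℂ] (H →L[ℂ] H)) (w v : H) (f : CT) : Prop :=
  ∀ g : CT, ⟪w, π g v⟫_ℂ = II (g * f)

variable {π : CT →⋆ₐ[ℂ] (H →L[ℂ] H)}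

theorem pi_mul (g g' : CT) (v : H) : π (g * g') v = π g (π g' v) := by
  rw [map_mul]; rfl

theorem inner_pi (g : CT) (w v : H) : ⟪π g w, v⟫_ℂ = ⟪w, π (star g) v⟫_ℂ := by
  rw [map_star, ContinuousLinearMap.star_eq_adjoint, ContinuousLinearMap.adjoint_inner_right]

theorem Rel.unique {w v : H} {f f' : CT} (h : Rel π w v f) (h' : Rel π w v f') : f = f' := by
  rw [← sub_eq_zero]
  apply eq_zero_of_II
  rw [mul_sub, map_sub, ← h, ← h', sub_self]
  simp

theorem Rel.add_right {w v v' : H} {f f' : CT} (h : Rel π w v f) (h' : Rel π w v' f') :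
    Rel π w (v + v') (f + f') := fun g => by
  rw [map_add, inner_add_right, h, h', mul_add, map_add]

theorem Rel.act_right {w v : H} {f : CT} (h : Rel π w v f) (g : CT) :
    Rel π w (π g v) (g * f) := fun g' => by
  rw [← pi_mul, h, mul_assoc]

theorem Rel.symm {w v : H} {f : CT} (h : Rel π w v f) : Rel π v w (star f) := fun g => by
  rw [← inner_conj_symm, inner_pi, h, ← II_star, star_mul, star_star, mul_comm]

theorem Rel.add_left {w w' v : H} {f f' : CT} (h : Rel π w v f) (h' : Rel π w' v f') :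
    Rel π (w + w') v (f + f') := by
  simpa using (h.symm.add_right h'.symm).symm

theorem Rel.act_left {w v : H} {f : CT} (h : Rel π w v f) (g : CT) :
    Rel π (π g w) v (star g * f) := by
  simpa [mul_comm] using (h.symm.act_right g).symm

theorem Rel.inner_eq {w v : H} {f : CT} (h : Rel π w v f) : ⟪w, v⟫_ℂ = II f := by
  simpa using h 1

theorem Rel.re_nonneg {v : H} {f : CT} (h : Rel π v v f) (t : TT) : 0 ≤ (f t).re := by
  let g : CT := ⟨fun t => (Real.sqrt (-(f t).re) : ℝ), by fun_prop⟩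
  let k : CT := ⟨fun t => (max (-(f t).re) 0 : ℝ), by fun_prop⟩
  have h1 : 0 ≤ (II (star g * g * f)).re := by
    rw [← h, pi_mul, ← inner_pi]
    simpa using inner_self_nonneg (𝕜 := ℂ) (x := π g v)
  have hint : ∀ u : CT, Integrable (fun t => u t) (AddCircle.haarAddCircle (T := 1)) := fun u =>
    u.continuous.integrable_of_hasCompactSupport (HasCompactSupport.of_compactSpace _)
  have h2 : (II (star k * k)).re = - (II (star g * g * f)).re := by
    rw [II_apply, II_apply]
    have e1 := integral_re (𝕜 := ℂ) (hint (star k * k))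
    have e2 := integral_re (𝕜 := ℂ) (hint (star g * g * f))
    simp only [RCLike.re_to_complex] at e1 e2
    rw [← e1, ← e2, ← integral_neg]
    refine integral_congr_ae (Eventually.of_forall fun t => ?_)
    simp only [g, k, ContinuousMap.mul_apply, ContinuousMap.star_apply, ContinuousMap.coe_mk,
      RCLike.star_def, Complex.conj_ofReal, ← Complex.ofReal_mul, Complex.re_ofReal_mul,
      Complex.ofReal_re]
    rcases le_total (f t).re 0 with h0 | h0
    · rw [Real.mul_self_sqrt (by linarith), max_eq_left (by linarith)]; ring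
    · rw [Real.sqrt_eq_zero'.2 (by linarith), max_eq_right (by linarith)]; ring
  have h3 : k = 0 := eq_zero_of_II k (by rw [h2]; linarith)
  have h4 : max (-(f t).re) 0 = 0 := by
    have := congrArg (fun u : CT => (u t).re) h3
    simpa [k] using this
  have := le_max_left (-(f t).re) 0
  linarith

/-- The module generated by the vectors `e i`. -/
inductive Dom (π : CT →⋆ₐ[ℂ] (H →L[ℂ] H)) (e : ℕ → H) : H → Prop
  | base (i : ℕ) : Dom π e (e i)
  | add {v w : H} : Dom π e v → Dom π e w → Dom π e (v + w)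
  | act (g : CT) {v : H} : Dom π e v → Dom π e (π g v)

open Classical in
/-- The spectral density. -/
def FF (π : CT →⋆ₐ[ℂ] (H →L[ℂ] H)) (w v : H) : CT :=
  if h : ∃ f, Rel π w v f then h.choose else 0

theorem Rel.FF_eq {w v : H} {f : CT} (h : Rel π w v f) : FF π w v = f := by
  have h' : ∃ f, Rel π w v f := ⟨f, h⟩
  rw [FF, dif_pos h']
  exact h'.choose_spec.unique h

theorem smul_zero_CT (c : ℂ) : c • (0 : CT) = 0 := by ext t; simp

theorem zero_smul_CT (f : CT) : (0 : ℂ) • f = 0 := by ext t; simp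

variable {e : ℕ → H}

theorem Dom.zero : Dom π e 0 := by
  simpa using Dom.act (π := π) (e := e) 0 (Dom.base 0)

theorem Dom.smul (c : ℂ) {v : H} (h : Dom π e v) : Dom π e (c • v) := by
  have := Dom.act (π := π) (e := e) (c • 1) h
  simpa using this

theorem Dom.sub {v w : H} (h : Dom π e v) (h' : Dom π e w) : Dom π e (v - w) := by
  have := h.add (h'.smul (-1))
  simpa [sub_eq_add_neg] using this

theorem Dom.sum {ι : Type*} (s : Finset ι) {v : ι → H} (h : ∀ i ∈ s, Dom π e (v i)) :
    Dom π e (∑ i ∈ s, v i) :=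
  Finset.sum_induction v (Dom π e) (fun _ _ => Dom.add) Dom.zero h

section
variable (hb : ∀ i j, ∃ f, Rel π (e i) (e j) f)
include hb

theorem Dom.rel {w v : H} (hw : Dom π e w) (hv : Dom π e v) : Rel π w v (FF π w v) := by
  have : ∃ f, Rel π w v f := by
    induction hw with
    | base i =>
      induction hv with
      | base j => exact hb i j
      | add _ _ h1 h2 =>
        obtain ⟨f, hf⟩ := h1
        obtain ⟨f', hf'⟩ := h2
        exact ⟨_, hf.add_right hf'⟩
      | act g _ h1 =>
        obtain ⟨f, hf⟩ := h1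
        exact ⟨_, hf.act_right g⟩
    | add _ _ h1 h2 =>
      obtain ⟨f, hf⟩ := h1
      obtain ⟨f', hf'⟩ := h2
      exact ⟨_, hf.add_left hf'⟩
    | act g _ h1 =>
      obtain ⟨f, hf⟩ := h1
      exact ⟨_, hf.act_left g⟩
  obtain ⟨f, hf⟩ := this
  rwa [hf.FF_eq]

theorem FF_add_right {w v v' : H} (hw : Dom π e w) (hv : Dom π e v) (hv' : Dom π e v') :
    FF π w (v + v') = FF π w v + FF π w v' :=
  ((hw.rel hb hv).add_right (hw.rel hb hv')).FF_eq

theorem FF_act_right {w v : H} (hw : Dom π e w) (hv : Dom π e v) (g : CT) :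
    FF π w (π g v) = g * FF π w v :=
  ((hw.rel hb hv).act_right g).FF_eq

theorem FF_symm {w v : H} (hw : Dom π e w) (hv : Dom π e v) :
    FF π v w = star (FF π w v) :=
  (hw.rel hb hv).symm.FF_eq

theorem FF_add_left {w w' v : H} (hw : Dom π e w) (hw' : Dom π e w') (hv : Dom π e v) :
    FF π (w + w') v = FF π w v + FF π w' v :=
  ((hw.rel hb hv).add_left (hw'.rel hb hv)).FF_eq

theorem FF_act_left {w v : H} (hw : Dom π e w) (hv : Dom π e v) (g : CT) :
    FF π (π g w) v = star g * FF π w v :=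
  ((hw.rel hb hv).act_left g).FF_eq

theorem FF_smul_right {w v : H} (hw : Dom π e w) (hv : Dom π e v) (c : ℂ) :
    FF π w (c • v) = c • FF π w v := by
  have := FF_act_right hb hw hv (c • 1)
  simpa using this

theorem FF_smul_left {w v : H} (hw : Dom π e w) (hv : Dom π e v) (c : ℂ) :
    FF π (c • w) v = conj c • FF π w v := by
  have := FF_act_left hb hw hv (c • 1)
  simpa using this

theorem FF_sub_right {w v v' : H} (hw : Dom π e w) (hv : Dom π e v) (hv' : Dom π e v') :
    FF π w (v - v') = FF π w v - FF π w v' := by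
  rw [eq_sub_iff_add_eq, ← FF_add_right hb hw (hv.sub hv') hv', sub_add_cancel]

theorem FF_sub_left {w w' v : H} (hw : Dom π e w) (hw' : Dom π e w') (hv : Dom π e v) :
    FF π (w - w') v = FF π w v - FF π w' v := by
  rw [eq_sub_iff_add_eq, ← FF_add_left hb (hw.sub hw') hw' hv, sub_add_cancel]

theorem FF_sum_right {ι : Type*} (s : Finset ι) {w : H} {v : ι → H} (hw : Dom π e w)
    (hv : ∀ i, Dom π e (v i)) : FF π w (∑ i ∈ s, v i) = ∑ i ∈ s, FF π w (v i) := by
  classical
  induction s using Finset.induction_on with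
  | empty =>
    have := FF_smul_right hb hw hw 0
    rw [zero_smul, zero_smul_CT] at this
    simpa using this
  | insert a s ha ih =>
    rw [Finset.sum_insert ha, Finset.sum_insert ha,
      FF_add_right hb hw (hv a) (Dom.sum s fun i _ => hv i), ih]

theorem FF_sum_left {ι : Type*} (s : Finset ι) {w : ι → H} {v : H} (hw : ∀ i, Dom π e (w i))
    (hv : Dom π e v) : FF π (∑ i ∈ s, w i) v = ∑ i ∈ s, FF π (w i) v := by
  rw [FF_symm hb hv (Dom.sum s fun i _ => hw i), FF_sum_right hb s hv hw, star_sum]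
  exact Finset.sum_congr rfl fun i _ => (FF_symm hb hv (hw i)).symm

theorem FF_tendsto {z : ℕ → ℕ} (hz : ∀ i, Tendsto (fun m => FF π (e i) (e (z m))) atTop (𝓝 0))
    {x : H} (hx : Dom π e x) : Tendsto (fun m => FF π x (e (z m))) atTop (𝓝 0) := by
  induction hx with
  | base i => exact hz i
  | add h1 h2 i1 i2 =>
    simp only [FF_add_left hb h1 h2 (Dom.base _)]
    simpa using i1.add i2
  | act g h1 i1 =>
    simp only [FF_act_left hb h1 (Dom.base _)]
    simpa using i1.const_mul (star g)

/-- One step of the Gram-Schmidt procedure in the module. -/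
theorem step {z : ℕ → ℕ} (hz : ∀ i, Tendsto (fun m => FF π (e i) (e (z m))) atTop (𝓝 0))
    (hz1 : Tendsto (fun m => FF π (e (z m)) (e (z m))) atTop (𝓝 1))
    {n : ℕ} (w : Fin n → H) (hw : ∀ i, Dom π e (w i))
    (hww : ∀ i j, FF π (w i) (w j) = if i = j then 1 else 0) (k : ℕ) {ε : ℝ} (hε : 0 < ε) :
    ∃ w' : H, Dom π e w' ∧ FF π w' w' = 1 ∧ (∀ i, FF π (w i) w' = 0) ∧
      ∃ (s : CT) (g : Fin n → CT), ‖e k - (π s w' + ∑ i, π (g i) (w i))‖ ≤ 2 * ε := by
  let P : H → H := fun x => x - ∑ i, π (FF π (w i) x) (w i)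
  have hPD : ∀ x, Dom π e x → Dom π e (P x) := fun x hx =>
    hx.sub (Dom.sum _ fun i _ => Dom.act _ (hw i))
  have hP0 : ∀ x, Dom π e x → ∀ j, FF π (w j) (P x) = 0 := fun x hx j => by
    simp only [P]
    rw [FF_sub_right hb (hw j) hx (Dom.sum _ fun i _ => Dom.act _ (hw i)),
      FF_sum_right hb _ (hw j) (fun i => Dom.act _ (hw i))]
    simp [FF_act_right hb (hw j) (hw _), hww]
  have hPl : ∀ x y, Dom π e x → Dom π e y → FF π (P x) (P y) = FF π x (P y) := fun x y hx hy => by
    simp only [P] at hP0 ⊢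
    rw [FF_sub_left hb hx (Dom.sum _ fun i _ => Dom.act _ (hw i)) (hPD y hy),
      FF_sum_left hb _ (fun i => Dom.act _ (hw i)) (hPD y hy)]
    simp [FF_act_left hb (hw _) (hPD y hy), hP0 y hy, P]
  have hv' := hPD _ (Dom.base k)
  set v' := P (e k) with hv'def
  have t1 : Tendsto (fun m => FF π v' (P (e (z m)))) atTop (𝓝 0) := by
    have : ∀ m, FF π v' (P (e (z m))) = FF π v' (e (z m)) := fun m => by
      rw [FF_symm hb (hPD _ (Dom.base _)) hv', hv'def, hPl _ _ (Dom.base _) (Dom.base _),
        ← FF_symm hb (Dom.base _) hv']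
    simp only [this]
    exact FF_tendsto hb hz hv'
  have t2 : Tendsto (fun m => FF π (P (e (z m))) (P (e (z m)))) atTop (𝓝 1) := by
    have : ∀ m, FF π (P (e (z m))) (P (e (z m))) = FF π (e (z m)) (e (z m))
        - ∑ i, FF π (w i) (e (z m)) * star (FF π (w i) (e (z m))) := fun m => by
      rw [hPl _ _ (Dom.base _) (Dom.base _)]
      simp only [P]
      rw [FF_sub_right hb (Dom.base _) (Dom.base _) (Dom.sum _ fun i _ => Dom.act _ (hw i)),
        FF_sum_right hb _ (Dom.base _) (fun i => Dom.act _ (hw i))]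
      congr 1
      refine Finset.sum_congr rfl fun i _ => ?_
      rw [FF_act_right hb (Dom.base _) (hw i), FF_symm hb (hw i) (Dom.base _)]
    simp only [this]
    have h0 : Tendsto (fun m => ∑ i, FF π (w i) (e (z m)) * star (FF π (w i) (e (z m))))
        atTop (𝓝 (∑ _i : Fin n, (0 : CT) * star 0)) :=
      tendsto_finsetSum _ fun i _ =>
        (FF_tendsto hb hz (hw i)).mul (FF_tendsto hb hz (hw i)).star
    simpa using hz1.sub h0
  have t3 : Tendsto (fun m => ((ε : ℂ)⁻¹) • (FF π v' (P (e (z m))) + star (FF π v' (P (e (z m)))))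
      + FF π (P (e (z m))) (P (e (z m)))) atTop (𝓝 1) := by
    have := ((t1.add t1.star).const_smul ((ε : ℂ)⁻¹)).add t2
    rwa [star_zero, add_zero, smul_zero_CT, zero_add] at this
  obtain ⟨m, hm1, hm2⟩ := ((Metric.tendsto_nhds.1 t3 (1 / 2) (by norm_num)).and
    (Metric.tendsto_nhds.1 t2 1 (by norm_num))).exists
  have hu' := hPD _ (Dom.base (z m))
  set u' := P (e (z m)) with hu'def
  rw [dist_eq_norm] at hm1 hm2
  set ρ := ((ε : ℂ)⁻¹) • (FF π v' u' + star (FF π v' u')) + FF π u' u' with hρ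
  have hε' : (ε : ℂ) ≠ 0 := by exact_mod_cast hε.ne'
  let x := v' + (ε : ℂ) • u'
  have hx : Dom π e x := hv'.add (hu'.smul _)
  have hr : FF π x x = FF π v' v' + ((ε : ℂ) ^ 2) • ρ := by
    simp only [x]
    rw [FF_add_left hb hv' (hu'.smul _) hx, FF_add_right hb hv' hv' (hu'.smul _),
      FF_smul_left hb hu' hx, FF_add_right hb hu' hv' (hu'.smul _), FF_smul_right hb hv' hu',
      FF_smul_right hb hu' hu', FF_symm hb hv' hu', hρ]
    ext t
    simp
    field_simp
    ring
  have hpos : ∀ t, 0 < (FF π x x t).re := fun t => by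
    have h1 := (hv'.rel hb hv').re_nonneg t
    have h2 : ‖(ρ - 1) t‖ < 1 / 2 := lt_of_le_of_lt ((ρ - 1).norm_coe_le_norm t) hm1
    have h3 := Complex.abs_re_le_norm ((ρ - 1) t)
    have h4 : -(1 / 2 : ℝ) < (ρ t).re - 1 := by
      have := neg_abs_le ((ρ - 1) t).re
      simp only [ContinuousMap.sub_apply, ContinuousMap.one_apply, Complex.sub_re,
        Complex.one_re] at this h3 h2
      linarith
    rw [hr]
    simp only [ContinuousMap.add_apply, ContinuousMap.smul_apply, smul_eq_mul, Complex.add_re,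
      ← Complex.ofReal_pow, Complex.re_ofReal_mul]
    have : 0 < ε ^ 2 * (ρ t).re := mul_pos (by positivity) (by linarith)
    linarith
  have hreal : ∀ t, FF π x x t = ((FF π x x t).re : ℂ) := fun t => by
    have := congrArg (fun u : CT => u t) (FF_symm hb hx hx)
    simp only [ContinuousMap.star_apply, RCLike.star_def] at this
    exact (Complex.conj_eq_iff_re.1 this.symm).symm
  have hsq : ∀ t, Real.sqrt (FF π x x t).re ≠ 0 := fun t => (Real.sqrt_pos.2 (hpos t)).ne'
  let s : CT := ⟨fun t => (Real.sqrt (FF π x x t).re : ℝ), by fun_prop⟩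
  let s' : CT := ⟨fun t => ((Real.sqrt (FF π x x t).re)⁻¹ : ℝ),
    Complex.continuous_ofReal.comp (Continuous.inv₀ (by fun_prop) hsq)⟩
  have hss : s * s' = 1 := by
    ext t
    simp only [s, s', ContinuousMap.mul_apply, ContinuousMap.coe_mk, ContinuousMap.one_apply,
      ← Complex.ofReal_mul, mul_inv_cancel₀ (hsq t), Complex.ofReal_one]
  refine ⟨π s' x, Dom.act _ hx, ?_, fun i => ?_, s, fun i => FF π (w i) (e k), ?_⟩
  · rw [FF_act_left hb hx (Dom.act _ hx), FF_act_right hb hx hx]
    ext t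
    simp only [s', ContinuousMap.mul_apply, ContinuousMap.coe_mk, ContinuousMap.one_apply,
      ContinuousMap.star_apply, RCLike.star_def, Complex.conj_ofReal]
    rw [hreal t]
    simp only [← Complex.ofReal_mul, Complex.ofReal_re]
    rw [← mul_assoc, ← mul_inv, Real.mul_self_sqrt (hpos t).le, inv_mul_cancel₀ (hpos t).ne',
      Complex.ofReal_one]
  · rw [FF_act_right hb (hw i) hx]
    simp only [x]
    rw [FF_add_right hb (hw i) hv' (hu'.smul _), FF_smul_right hb (hw i) hu',
      hP0 _ (Dom.base _), hP0 _ (Dom.base _), smul_zero_CT, add_zero, mul_zero]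
  · rw [← pi_mul, hss, map_one]
    have e1 : e k - ((1 : H →L[ℂ] H) x + ∑ i, π (FF π (w i) (e k)) (w i)) = -((ε : ℂ) • u') := by
      simp only [x, hv'def, P, one_apply_eq_self]
      abel
    rw [e1, norm_neg, norm_smul, Complex.norm_real, Real.norm_of_nonneg hε.le, mul_comm]
    refine mul_le_mul_of_nonneg_right ?_ hε.le
    have h1 : ‖⟪u', u'⟫_ℂ‖ ≤ 2 := by
      rw [(hu'.rel hb hu').inner_eq]
      refine (II_norm_le _).trans ?_
      have : ‖FF π u' u'‖ ≤ ‖FF π u' u' - 1‖ + ‖(1 : CT)‖ := norm_le_norm_sub_add _ _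
      rw [norm_one] at this
      linarith
    rw [inner_self_eq_norm_sq_to_K] at h1
    simp only [norm_pow, Complex.coe_algebraMap,
      Complex.norm_real, norm_norm] at h1
    nlinarith [norm_nonneg u']

end

end Pool.Agent.H115Z.Shift
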