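import Mathlib

set_option autoImplicit false

open MeasureTheory Filter Topology
open scoped InnerProductSpace ComplexConjugate

noncomputable section

namespace Pool.Agent.H115Z.Shift

abbrev TT : Type := AddCircle (1 : ℝ)

abbrev CT : Type := C(TT, ℂ)

/-- Integration on the circle as a continuous functional. -/
def II : CT →L[ℂ] ℂ :=
  LinearMap.mkContinuous
    { toFun := fun g => ∫ t, g t ∂AddCircle.haarAddCircle
      map_add' := fun f g => by
        simp only [ContinuousMap.add_apply]
        exact integral_add (f.continuous.integrable_of_hasCompactSupport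
          (HasCompactSupport.of_compactSpace _)) (g.continuous.integrable_of_hasCompactSupport
          (HasCompactSupport.of_compactSpace _))
      map_smul' := fun c f => by
        simp only [ContinuousMap.smul_apply, RingHom.id_apply]
        exact integral_smul c _ } 1 (fun g => by
      simp only [LinearMap.coe_mk, AddHom.coe_mk, one_mul]
      have := norm_integral_le_of_norm_le_const (μ := AddCircle.haarAddCircle (T := 1))
        (f := fun t => g t) (C := ‖g‖) (Eventually.of_forall fun t => g.norm_coe_le_norm t)
      simpa using this)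

theorem II_apply (g : CT) : II g = ∫ t, g t ∂AddCircle.haarAddCircle := rfl

theorem II_norm_le (g : CT) : ‖II g‖ ≤ ‖g‖ := by
  have := norm_integral_le_of_norm_le_const (μ := AddCircle.haarAddCircle (T := 1))
    (f := fun t => g t) (C := ‖g‖) (Eventually.of_forall fun t => g.norm_coe_le_norm t)
  simpa [II_apply] using this

theorem II_fourier (n : ℤ) : II (fourier n) = if n = 0 then 1 else 0 := by
  rw [II_apply]
  split_ifs with h
  · subst h; simp
  · exact integral_eq_zero_of_add_right_eq_neg (μ := AddCircle.haarAddCircle)
      (fourier_add_half_inv_index h one_pos)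

theorem II_star (g : CT) : II (star g) = conj (II g) := by
  rw [II_apply, II_apply, ← integral_conj]
  rfl

theorem fourier_mul (m n : ℤ) : (fourier m : CT) * fourier n = fourier (m + n) := by
  ext t; simp

theorem star_fourier (n : ℤ) : star (fourier n : CT) = fourier (-n) := by
  ext t; simp

theorem fourier_zero' : (fourier 0 : CT) = 1 := by
  ext t; simp

/-- A real continuous nonnegative function with zero integral vanishes. -/
theorem eq_zero_of_II (f : CT) (h : (II (star f * f)).re ≤ 0) : f = 0 := by
  have e : II (star f * f) = ((∫ t, ‖f t‖ ^ 2 ∂AddCircle.haarAddCircle (T := 1) : ℝ) : ℂ) := by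
    rw [II_apply, ← integral_complex_ofReal]
    refine integral_congr_ae (Eventually.of_forall fun t => ?_)
    simp [Complex.conj_mul']
  rw [e, Complex.ofReal_re] at h
  have hc : Continuous fun t => ‖f t‖ ^ 2 := by fun_prop
  have h0 : ∫ t, ‖f t‖ ^ 2 ∂AddCircle.haarAddCircle (T := 1) = 0 :=
    le_antisymm h (integral_nonneg fun t => by positivity)
  ext t
  by_contra hne
  have h1 := Continuous.integral_pos_of_hasCompactSupport_nonneg_nonzero
    (μ := AddCircle.haarAddCircle (T := 1)) (f := fun t => ‖f t‖ ^ 2) hc
    (HasCompactSupport.of_compactSpace _) (fun t => by positivity) (x := t)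
    (by simpa using hne)
  linarith

theorem ext_fourier {E : Type*} [NormedAddCommGroup E] [NormedSpace ℂ E]
    (A B : CT →L[ℂ] E) (h : ∀ n, A (fourier n) = B (fourier n)) : A = B := by
  refine ContinuousLinearMap.ext_on (s := Set.range (fourier (T := (1 : ℝ)))) ?_ ?_
  · rw [Submodule.dense_iff_topologicalClosure_eq_top]
    exact span_fourier_closure_eq_top
  · rintro _ ⟨n, rfl⟩
    exact h n

variable {H : Type*} [NormedAddCommGroup H] [InnerProductSpace ℂ H] [CompleteSpace H]

/-- The continuous functional calculus of a unitary, on the whole circle. -/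
theorem exists_rep (U : H →L[ℂ] H) (hU : U ∈ unitary (H →L[ℂ] H)) :
    ∃ π : CT →⋆ₐ[ℂ] (H →L[ℂ] H), Continuous π ∧ π (fourier 1) = U := by
  have hn : IsStarNormal U := ⟨by
    have h1 := (Unitary.mem_iff.1 hU).1
    have h2 := (Unitary.mem_iff.1 hU).2
    exact h1.trans h2.symm⟩
  have hs : spectrum ℂ U ⊆ Metric.sphere 0 1 := spectrum.subset_circle_of_unitary hU
  let j : C(spectrum ℂ U, Circle) :=
    ⟨fun z => (⟨z.1, hs z.2⟩ : Circle), continuous_subtype_val.subtype_mk _⟩
  let k : C(spectrum ℂ U, TT) :=
    ((AddCircle.homeomorphCircle (T := (1 : ℝ)) one_ne_zero).symm : C(Circle, TT)).comp j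
  refine ⟨(cfcHom hn).comp (ContinuousMap.compStarAlgHom' ℂ ℂ k), ?_, ?_⟩
  · exact (cfcHom_continuous hn).comp (ContinuousMap.continuous_precomp _)
  · have : (ContinuousMap.compStarAlgHom' ℂ ℂ k) (fourier 1)
        = (ContinuousMap.id ℂ).restrict (spectrum ℂ U) := by
      ext z
      simp only [ContinuousMap.compStarAlgHom'_apply, ContinuousMap.comp_apply, fourier_one, k]
      rw [← AddCircle.homeomorphCircle_apply one_ne_zero]
      simp [j]
    rw [StarAlgHom.comp_apply, this, cfcHom_id]

end Pool.Agent.H115Z.Shift
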